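import Mathlib

set_option autoImplicit false
open MeasureTheory

/-!
# MP_8fded1_nt: values of Hecke-Maass cusp forms near the elliptic point i

For every Hecke-Maass cusp form for the full modular group, the value at a point of the disc of
radius 1/10 around the elliptic point `i` is at most four times the value at some point of one fixed
compact set which is disjoint from all modular translates of that disc.  So in the sup-norm
problem the modular orbit of that disc may be removed, for every exponent.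
-/

namespace Pool.Agent.Results.MP_8fded1_nt.EllipticPointIsHarmless

/-- `U` is an `L^2`-normalised Hecke-Maass cusp form for `SL_2(Z)` with Laplace eigenvalue
`1/4 + T^2` (the clauses are those of the frozen statement of the problem). -/
def IsHeckeMaass (U : ℂ → ℂ) (T : ℝ) : Prop :=
  ContDiffOn ℝ 2 U {z : ℂ | 0 < z.im} ∧
  (∀ z : ℂ, 0 < z.im → U (z + 1) = U z ∧ U (-z⁻¹) = U z) ∧
  (∀ z : ℂ, 0 < z.im →
    -((z.im : ℂ)) ^ 2 *
      (deriv (deriv (fun t : ℝ => U (z + (t : ℂ)))) 0 +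
        deriv (deriv (fun t : ℝ => U (z + (t : ℂ) * Complex.I))) 0)
      = (1 / 4 + (T : ℂ) ^ 2) * U z) ∧
  (∀ y : ℝ, 0 < y →
    intervalIntegral (fun x : ℝ => U ((x : ℂ) + (y : ℂ) * Complex.I)) 0 1 volume = 0) ∧
  (∫ z in {z : ℂ | 0 < z.im ∧ |z.re| ≤ 1 / 2 ∧ 1 ≤ ‖z‖}, ‖U z‖ ^ 2 / z.im ^ 2) = 1 ∧
  (∀ n : ℕ, 1 ≤ n → ∃ c : ℂ, ∀ z : ℂ, 0 < z.im →
    ∑ d ∈ n.divisors, ∑ b ∈ Finset.range d,
        U ((((n / d : ℕ) : ℂ) * z + (b : ℂ)) / (d : ℂ)) = c * U z)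

/-- The fractional linear action of `SL_2(Z)`. -/
noncomputable def moeb (g : Matrix.SpecialLinearGroup (Fin 2) ℤ) (z : ℂ) : ℂ :=
  ((g 0 0 : ℂ) * z + (g 0 1 : ℂ)) / ((g 1 0 : ℂ) * z + (g 1 1 : ℂ))

/-- `K` meets no modular translate of the open disc of radius `1/10` around `i`. -/
def AwayFromI (K : Set ℂ) : Prop :=
  ∀ z ∈ K, ∀ g : Matrix.SpecialLinearGroup (Fin 2) ℤ, 1 / 10 ≤ ‖moeb g z - Complex.I‖

/-- The sup-norm bound with exponent `s` on the set `K`. -/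
def SupNormBound (K : Set ℂ) (s : ℝ) : Prop :=
  ∃ C : ℝ, ∀ U : ℂ → ℂ, ∀ T : ℝ, 1 ≤ T → IsHeckeMaass U T → ∀ z ∈ K, ‖U z‖ ≤ C * T ^ s

/-- The upper triangular matrices of determinant `3` and the primitive ones of determinant `9`
(representatives, used in the proof only). -/
def fam : Finset (ℕ × ℕ × ℕ) :=
  {(3,0,1), (1,0,3), (1,1,3), (1,2,3), (9,0,1), (3,1,3), (3,2,3), (1,0,9), (1,1,9), (1,2,9),
    (1,3,9), (1,4,9), (1,5,9), (1,6,9), (1,7,9), (1,8,9)}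

noncomputable def fmap (t : ℕ × ℕ × ℕ) (z : ℂ) : ℂ := ((t.1 : ℂ) * z + (t.2.1 : ℂ)) / (t.2.2 : ℂ)

def bigL : Set ℂ := ⋃ t ∈ fam, fmap t '' Metric.closedBall Complex.I (1 / 10)

lemma fam_prop : ∀ t ∈ fam, 0 < t.1 ∧ 0 < t.2.2 ∧ t.1 * t.2.2 ≤ 9 ∧ 3 ∣ t.1 * t.2.2 ∧
    ¬ (3 ∣ t.1 ∧ 3 ∣ t.2.1 ∧ 3 ∣ t.2.2) := by decide

lemma im_pos_of_ball {z : ℂ} (hz : ‖z - Complex.I‖ ≤ 1 / 10) : 0 < z.im := by
  have h := (Complex.abs_im_le_norm (z - Complex.I)).trans hz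
  simp only [Complex.sub_im, Complex.I_im] at h
  have := (abs_le.mp h).1
  linarith

lemma im_fmap {t : ℕ × ℕ × ℕ} (ht : t ∈ fam) {z : ℂ} (hz : 0 < z.im) : 0 < (fmap t z).im := by
  obtain ⟨h1, h2, -⟩ := fam_prop t ht
  have h1' : (0 : ℝ) < t.1 := by exact_mod_cast h1
  have h2' : (0 : ℝ) < t.2.2 := by exact_mod_cast h2
  have : (fmap t z).im = (t.1 : ℝ) * z.im / (t.2.2 : ℝ) := by
    unfold fmap
    rw [show ((t.2.2 : ℂ)) = (((t.2.2 : ℝ)) : ℂ) by norm_cast, Complex.div_ofReal_im]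
    simp
  rw [this]
  positivity

/-- arithmetic part: no matrix in question fixes `i` -/
lemma arith {a b c d : ℤ} {α β δ : ℕ} (hdet : a * d - b * c = 1) (h3 : 3 ∣ α * δ)
    (hp : ¬ (3 ∣ α ∧ 3 ∣ β ∧ 3 ∣ δ)) :
    1 ≤ (a * β + b * δ + c * α) ^ 2 + (a * α - (c * β + d * δ)) ^ 2 := by
  by_contra hlt
  have h0 : (a * β + b * δ + c * α) ^ 2 + (a * α - (c * β + d * δ)) ^ 2 = 0 := by
    have : 0 ≤ (a * β + b * δ + c * α : ℤ) ^ 2 + (a * α - (c * β + d * δ)) ^ 2 := by positivity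
    omega
  have hB : (a * β + b * δ + c * α : ℤ) = 0 := by nlinarith [sq_nonneg (a * β + b * δ + c * α : ℤ), sq_nonneg (a * α - (c * β + d * δ) : ℤ)]
  have hA : (a * α - (c * β + d * δ) : ℤ) = 0 := by nlinarith [sq_nonneg (a * β + b * δ + c * α : ℤ), sq_nonneg (a * α - (c * β + d * δ) : ℤ)]
  obtain ⟨k, hk⟩ := h3
  have hk' : (α : ℤ) * δ = 3 * k := by exact_mod_cast hk
  have hsum : (a * α : ℤ) ^ 2 + (c * α) ^ 2 = 3 * k := by
    have e1 : (a * α : ℤ) = c * β + d * δ := by linarith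
    have e2 : (c * α : ℤ) = - (a * β + b * δ) := by linarith
    have : (a * α : ℤ) ^ 2 + (c * α) ^ 2 = (a * α) * (c * β + d * δ) - (c * α) * (a * β + b * δ) := by
      rw [← e1]
      have e3 : (a * β + b * δ : ℤ) = - (c * α) := by linarith
      rw [e3]; ring
    rw [this, ← hk']
    linear_combination (α * δ : ℤ) * hdet
  have hdvd : ∀ x y m : ℤ, x ^ 2 + y ^ 2 = 3 * m → 3 ∣ x ∧ 3 ∣ y := by
    intro x y m h
    have hx : x % 3 = 0 ∨ x % 3 = 1 ∨ x % 3 = 2 := by omega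
    have hy : y % 3 = 0 ∨ y % 3 = 1 ∨ y % 3 = 2 := by omega
    have hm : (x ^ 2 + y ^ 2) % 3 = 0 := by rw [h]; omega
    rcases hx with hx | hx | hx <;> rcases hy with hy | hy | hy <;>
      simp [pow_two, Int.add_emod, Int.mul_emod, hx, hy] at hm <;>
      exact ⟨Int.dvd_of_emod_eq_zero hx, Int.dvd_of_emod_eq_zero hy⟩
  obtain ⟨hA3, hC3⟩ := hdvd _ _ _ hsum
  have hD3 : (3 : ℤ) ∣ c * β + d * δ := by
    have : (c * β + d * δ : ℤ) = a * α := by linarith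
    rw [this]; exact hA3
  have hB3 : (3 : ℤ) ∣ a * β + b * δ := by
    have : (a * β + b * δ : ℤ) = - (c * α) := by linarith
    rw [this]; exact hC3.neg_right
  apply hp
  refine ⟨?_, ?_, ?_⟩
  · have : (3 : ℤ) ∣ (α : ℤ) := by
      have e : (α : ℤ) = d * (a * α) - b * (c * α) := by linear_combination (-(α : ℤ)) * hdet
      rw [e]; exact (hA3.mul_left d).sub (hC3.mul_left b)
    exact_mod_cast this
  · have : (3 : ℤ) ∣ (β : ℤ) := by
      have e : (β : ℤ) = d * (a * β + b * δ) - b * (c * β + d * δ) := by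
        linear_combination (-(β : ℤ)) * hdet
      rw [e]; exact (hB3.mul_left d).sub (hD3.mul_left b)
    exact_mod_cast this
  · have : (3 : ℤ) ∣ (δ : ℤ) := by
      have e : (δ : ℤ) = a * (c * β + d * δ) - c * (a * β + b * δ) := by
        linear_combination (-(δ : ℤ)) * hdet
      rw [e]; exact (hD3.mul_left a).sub (hB3.mul_left c)
    exact_mod_cast this

/-- analytic part -/
lemma analytic {A B C D : ℤ} {n : ℝ} (hn : n ≤ 9) (hdet : (A : ℝ) * D - B * C = n) (hn0 : 0 < n)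
    (h1 : 1 ≤ (B + C) ^ 2 + (A - D) ^ 2) {z : ℂ} (hz : ‖z - Complex.I‖ ≤ 1 / 10) :
    1 / 10 ≤ ‖((A : ℂ) * z + B) / ((C : ℂ) * z + D) - Complex.I‖ := by
  by_contra hlt
  push Not at hlt
  have hzim := im_pos_of_ball hz
  have hden : (C : ℂ) * z + D ≠ 0 := by
    intro h0
    have him := congrArg Complex.im h0
    have hre := congrArg Complex.re h0
    simp at him hre
    rcases him with hC | hz0
    · rw [hC] at hre
      simp at hre
      rw [hC, hre] at hdet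
      simp at hdet
      linarith
    · linarith
  have hW : ((A : ℂ) * z + B) / ((C : ℂ) * z + D) - Complex.I
      = (((A : ℂ) * z + B) - Complex.I * ((C : ℂ) * z + D)) / ((C : ℂ) * z + D) := by
    rw [sub_div, mul_div_cancel_right₀ _ hden]
  rw [hW, norm_div, div_lt_iff₀ (norm_pos_iff.mpr hden)] at hlt
  have hp : ‖((B + C : ℝ) : ℂ) + ((A - D : ℝ) : ℂ) * Complex.I‖
      ≤ ‖((A : ℂ) * z + B) - Complex.I * ((C : ℂ) * z + D)‖
        + ‖z - Complex.I‖ * ‖(A : ℂ) - Complex.I * C‖ := by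
    rw [← norm_mul]
    have : ((B + C : ℝ) : ℂ) + ((A - D : ℝ) : ℂ) * Complex.I
        = (((A : ℂ) * z + B) - Complex.I * ((C : ℂ) * z + D))
          - (z - Complex.I) * ((A : ℂ) - Complex.I * C) := by
      push_cast
      ring_nf
      rw [Complex.I_sq]
      ring
    rw [this]
    exact norm_sub_le _ _
  have hden2 : ‖(C : ℂ) * z + D‖ ≤ ‖(D : ℂ) + C * Complex.I‖ + ‖(C : ℂ)‖ * ‖z - Complex.I‖ := by
    rw [← norm_mul]
    have : (C : ℂ) * z + D = ((D : ℂ) + C * Complex.I) + (C : ℂ) * (z - Complex.I) := by ring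
    rw [this]
    exact norm_add_le _ _
  set P := ‖((B + C : ℝ) : ℂ) + ((A - D : ℝ) : ℂ) * Complex.I‖ with hPdef
  set q1 := ‖(A : ℂ) - Complex.I * C‖ with hq1
  set q2 := ‖(D : ℂ) + C * Complex.I‖ with hq2
  have hP2 : P ^ 2 = (B + C : ℝ) ^ 2 + (A - D : ℝ) ^ 2 := by
    rw [hPdef, Complex.sq_norm, Complex.normSq_add_mul_I]
  have hq12 : q1 ^ 2 = (A : ℝ) ^ 2 + (C : ℝ) ^ 2 := by
    rw [hq1, Complex.sq_norm]
    have : (A : ℂ) - Complex.I * C = ((A : ℝ) : ℂ) + ((-C : ℝ) : ℂ) * Complex.I := by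
      push_cast; ring
    rw [this, Complex.normSq_add_mul_I]; ring
  have hq22 : q2 ^ 2 = (D : ℝ) ^ 2 + (C : ℝ) ^ 2 := by
    rw [hq2, Complex.sq_norm]
    have : (D : ℂ) + C * Complex.I = ((D : ℝ) : ℂ) + ((C : ℝ) : ℂ) * Complex.I := by
      push_cast; ring
    rw [this, Complex.normSq_add_mul_I]
  have hCn : ‖(C : ℂ)‖ ≤ q2 := by
    have h2 : ‖(C : ℂ)‖ ^ 2 ≤ q2 ^ 2 := by
      rw [hq22]
      have : ‖(C : ℂ)‖ ^ 2 = (C : ℝ) ^ 2 := by
        rw [show (C : ℂ) = ((C : ℝ) : ℂ) by norm_cast, Complex.norm_real, Real.norm_eq_abs, sq_abs]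
      rw [this]; nlinarith [sq_nonneg (D : ℝ)]
    exact (sq_le_sq₀ (norm_nonneg _) (norm_nonneg _)).mp h2
  have hq10 : 0 ≤ q1 := norm_nonneg _
  have hq20 : 0 ≤ q2 := norm_nonneg _
  have hP0 : 0 ≤ P := norm_nonneg _
  have hu0 : 0 ≤ ‖z - Complex.I‖ := norm_nonneg _
  have hC0 : 0 ≤ ‖(C : ℂ)‖ := norm_nonneg _
  have hPle : P ≤ (1 / 10) * q1 + (11 / 100) * q2 := by
    have e1 : ‖z - Complex.I‖ * q1 ≤ (1 / 10) * q1 := mul_le_mul_of_nonneg_right hz hq10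
    have e2 : ‖(C : ℂ)‖ * ‖z - Complex.I‖ ≤ q2 * (1 / 10) := mul_le_mul hCn hz hu0 hq20
    linarith
  have hPsq : P ^ 2 ≤ ((1 / 10) * q1 + (11 / 100) * q2) ^ 2 := pow_le_pow_left₀ hP0 hPle 2
  have hb : ((1 / 10) * q1 + (11 / 100) * q2) ^ 2 ≤ (21 / 1000) * q1 ^ 2 + (231 / 10000) * q2 ^ 2 := by
    nlinarith [sq_nonneg (q1 - q2)]
  have h1' : (1 : ℝ) ≤ (B + C : ℝ) ^ 2 + (A - D : ℝ) ^ 2 := by exact_mod_cast h1
  have hN : (A : ℝ) ^ 2 + (B : ℝ) ^ 2 + (C : ℝ) ^ 2 + (D : ℝ) ^ 2 = P ^ 2 + 2 * n := by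
    rw [hP2, ← hdet]; ring
  rw [hq12, hq22] at hb
  nlinarith [sq_nonneg (A : ℝ), sq_nonneg (B : ℝ), sq_nonneg (C : ℝ), sq_nonneg (D : ℝ)]

lemma away_bigL : AwayFromI bigL := by
  intro w hw g
  simp only [bigL, Set.mem_iUnion, Set.mem_image, Metric.mem_closedBall, dist_eq_norm] at hw
  obtain ⟨t, ht, z, hz, rfl⟩ := hw
  obtain ⟨h1, h2, h9, h3, hp⟩ := fam_prop t ht
  have hdet : g 0 0 * g 1 1 - g 0 1 * g 1 0 = 1 := by
    have := g.det_coe
    rw [Matrix.det_fin_two] at this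
    exact this
  have hδ : (t.2.2 : ℂ) ≠ 0 := by exact_mod_cast h2.ne'
  have key := analytic (A := g 0 0 * t.1) (B := g 0 0 * t.2.1 + g 0 1 * t.2.2)
    (C := g 1 0 * t.1) (D := g 1 0 * t.2.1 + g 1 1 * t.2.2) (n := ((t.1 * t.2.2 : ℕ) : ℝ))
    (by exact_mod_cast h9)
    (by
      have : (g 0 0 * t.1) * (g 1 0 * t.2.1 + g 1 1 * t.2.2)
          - (g 0 0 * t.2.1 + g 0 1 * t.2.2) * (g 1 0 * t.1) = ((t.1 * t.2.2 : ℕ) : ℤ) := by
        push_cast
        linear_combination (t.1 * t.2.2 : ℤ) * hdet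
      exact_mod_cast this)
    (by exact_mod_cast Nat.mul_pos h1 h2)
    (by simpa using arith hdet h3 hp) hz
  have e : moeb g (fmap t z) = (((g 0 0 * t.1 : ℤ) : ℂ) * z + ((g 0 0 * t.2.1 + g 0 1 * t.2.2 : ℤ) : ℂ))
      / (((g 1 0 * t.1 : ℤ) : ℂ) * z + ((g 1 0 * t.2.1 + g 1 1 * t.2.2 : ℤ) : ℂ)) := by
    unfold moeb fmap
    have e1 : (g 0 0 : ℂ) * (((t.1 : ℂ) * z + (t.2.1 : ℂ)) / (t.2.2 : ℂ)) + (g 0 1 : ℂ)
        = ((((g 0 0 * t.1 : ℤ) : ℂ) * z + ((g 0 0 * t.2.1 + g 0 1 * t.2.2 : ℤ) : ℂ))) / (t.2.2 : ℂ) := by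
      push_cast; field_simp; ring
    have e2 : (g 1 0 : ℂ) * (((t.1 : ℂ) * z + (t.2.1 : ℂ)) / (t.2.2 : ℂ)) + (g 1 1 : ℂ)
        = ((((g 1 0 * t.1 : ℤ) : ℂ) * z + ((g 1 0 * t.2.1 + g 1 1 * t.2.2 : ℤ) : ℂ))) / (t.2.2 : ℂ) := by
      push_cast; field_simp; ring
    rw [e1, e2, div_div_div_cancel_right₀ hδ]
  rw [e]
  exact key

lemma isCompact_bigL : IsCompact bigL := by
  unfold bigL
  refine Finset.isCompact_biUnion _ fun t _ => ?_
  refine (isCompact_closedBall _ _).image ?_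
  unfold fmap
  fun_prop

lemma bigL_sub : bigL ⊆ {z : ℂ | 0 < z.im} := by
  intro w hw
  simp only [bigL, Set.mem_iUnion, Set.mem_image, Metric.mem_closedBall, dist_eq_norm] at hw
  obtain ⟨t, ht, z, hz, rfl⟩ := hw
  exact im_fmap ht (im_pos_of_ball hz)

lemma mem_bigL {t : ℕ × ℕ × ℕ} (ht : t ∈ fam) {z : ℂ} (hz : ‖z - Complex.I‖ ≤ 1 / 10) :
    fmap t z ∈ bigL := by
  simp only [bigL, Set.mem_iUnion, Set.mem_image, Metric.mem_closedBall, dist_eq_norm]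
  exact ⟨t, ht, z, hz, rfl⟩

lemma hecke_ineq {U : ℂ → ℂ} {T : ℝ} (hU : IsHeckeMaass U T) {z : ℂ}
    (hz : ‖z - Complex.I‖ ≤ 1 / 10) : ∃ w ∈ bigL, ‖U z‖ ≤ 4 * ‖U w‖ := by
  by_contra hcon
  push Not at hcon
  obtain ⟨-, hinv, -, -, -, hH⟩ := hU
  obtain ⟨c, hc⟩ := hH 3 (by norm_num)
  have hz0 := im_pos_of_ball hz
  have hV : ∀ w : ℂ, 0 < w.im →
      U (3 * w) + (U (w / 3) + U ((w + 1) / 3) + U ((w + 2) / 3)) = c * U w := by
    intro w hw
    have h := hc w hw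
    rw [Nat.Prime.divisors Nat.prime_three, Finset.sum_pair (by norm_num)] at h
    simp only [Finset.sum_range_succ, Finset.sum_range_zero, zero_add] at h
    norm_num at h
    exact h
  have im3 : ∀ (w : ℂ) (k : ℝ), 0 < w.im → 0 < ((w + (k : ℂ)) / 3).im := by
    intro w k hw
    have : ((w + (k : ℂ)) / 3).im = w.im / 3 := by
      rw [show (3 : ℂ) = ((3 : ℝ) : ℂ) by norm_num, Complex.div_ofReal_im]
      simp
    rw [this]; positivity
  have h0 := hV z hz0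
  have hA := hV (3 * z) (by simpa using hz0)
  have hB := hV (z / 3) (by simpa using im3 z 0 hz0)
  have hC := hV ((z + 1) / 3) (by simpa using im3 z 1 hz0)
  have hD := hV ((z + 2) / 3) (by simpa using im3 z 2 hz0)
  have p1 : U (z + 1) = U z := (hinv z hz0).1
  have p2 : U (z + 2) = U z := by
    have := (hinv (z + 1) (by simpa using hz0)).1
    rw [show z + 2 = z + 1 + 1 by ring, this, p1]
  have f : ∀ t ∈ fam, 4 * ‖U (fmap t z)‖ < ‖U z‖ := fun t ht => hcon _ (mem_bigL ht hz)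
  have g1 : 4 * ‖U (3 * z)‖ < ‖U z‖ := by simpa [fmap] using f (3,0,1) (by decide)
  have g2 : 4 * ‖U (z / 3)‖ < ‖U z‖ := by simpa [fmap] using f (1,0,3) (by decide)
  have g3 : 4 * ‖U ((z + 1) / 3)‖ < ‖U z‖ := by simpa [fmap] using f (1,1,3) (by decide)
  have g4 : 4 * ‖U ((z + 2) / 3)‖ < ‖U z‖ := by simpa [fmap] using f (1,2,3) (by decide)
  have k1 : 4 * ‖U (9 * z)‖ < ‖U z‖ := by simpa [fmap] using f (9,0,1) (by decide)
  have k2 : 4 * ‖U ((3 * z + 1) / 3)‖ < ‖U z‖ := by simpa [fmap] using f (3,1,3) (by decide)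
  have k3 : 4 * ‖U ((3 * z + 2) / 3)‖ < ‖U z‖ := by simpa [fmap] using f (3,2,3) (by decide)
  have m0 : 4 * ‖U (z / 9)‖ < ‖U z‖ := by simpa [fmap] using f (1,0,9) (by decide)
  have m1 : 4 * ‖U ((z + 1) / 9)‖ < ‖U z‖ := by simpa [fmap] using f (1,1,9) (by decide)
  have m2 : 4 * ‖U ((z + 2) / 9)‖ < ‖U z‖ := by simpa [fmap] using f (1,2,9) (by decide)
  have m3 : 4 * ‖U ((z + 3) / 9)‖ < ‖U z‖ := by simpa [fmap] using f (1,3,9) (by decide)
  have m4 : 4 * ‖U ((z + 4) / 9)‖ < ‖U z‖ := by simpa [fmap] using f (1,4,9) (by decide)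
  have m5 : 4 * ‖U ((z + 5) / 9)‖ < ‖U z‖ := by simpa [fmap] using f (1,5,9) (by decide)
  have m6 : 4 * ‖U ((z + 6) / 9)‖ < ‖U z‖ := by simpa [fmap] using f (1,6,9) (by decide)
  have m7 : 4 * ‖U ((z + 7) / 9)‖ < ‖U z‖ := by simpa [fmap] using f (1,7,9) (by decide)
  have m8 : 4 * ‖U ((z + 8) / 9)‖ < ‖U z‖ := by simpa [fmap] using f (1,8,9) (by decide)
  have hpos : 0 < ‖U z‖ := lt_of_le_of_lt (by positivity) g1
  -- normal forms of the points
  rw [show 3 * (3 * z) = 9 * z by ring, show 3 * z / 3 = z by ring] at hA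
  rw [show 3 * (z / 3) = z by ring, show z / 3 / 3 = z / 9 by ring,
    show (z / 3 + 1) / 3 = (z + 3) / 9 by ring, show (z / 3 + 2) / 3 = (z + 6) / 9 by ring] at hB
  rw [show 3 * ((z + 1) / 3) = z + 1 by ring, show (z + 1) / 3 / 3 = (z + 1) / 9 by ring,
    show ((z + 1) / 3 + 1) / 3 = (z + 4) / 9 by ring,
    show ((z + 1) / 3 + 2) / 3 = (z + 7) / 9 by ring, p1] at hC
  rw [show 3 * ((z + 2) / 3) = z + 2 by ring, show (z + 2) / 3 / 3 = (z + 2) / 9 by ring,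
    show ((z + 2) / 3 + 1) / 3 = (z + 5) / 9 by ring,
    show ((z + 2) / 3 + 2) / 3 = (z + 8) / 9 by ring, p2] at hD
  have hcsmall : ‖c‖ < 1 := by
    have h1 : ‖c‖ * ‖U z‖ < 1 * ‖U z‖ := by
      rw [← norm_mul, ← h0]
      have n1 := norm_add_le (U (3 * z)) (U (z / 3) + U ((z + 1) / 3) + U ((z + 2) / 3))
      have n2 := norm_add_le (U (z / 3) + U ((z + 1) / 3)) (U ((z + 2) / 3))
      have n3 := norm_add_le (U (z / 3)) (U ((z + 1) / 3))
      linarith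
    exact lt_of_mul_lt_mul_right h1 hpos.le
  have hbig : ‖c ^ 2 - 4‖ * ‖U z‖ < 3 * ‖U z‖ := by
    rw [← norm_mul]
    have e : (c ^ 2 - 4) * U z = U (9 * z) + (U ((3 * z + 1) / 3) + (U ((3 * z + 2) / 3)
        + (U (z / 9) + (U ((z + 1) / 9) + (U ((z + 2) / 9) + (U ((z + 3) / 9) + (U ((z + 4) / 9)
        + (U ((z + 5) / 9) + (U ((z + 6) / 9) + (U ((z + 7) / 9) + U ((z + 8) / 9))))))))))) := by
      linear_combination (-c) * h0 - hA - hB - hC - hD
    rw [e]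
    have a1 := norm_add_le (U (9 * z)) (U ((3 * z + 1) / 3) + (U ((3 * z + 2) / 3)
        + (U (z / 9) + (U ((z + 1) / 9) + (U ((z + 2) / 9) + (U ((z + 3) / 9) + (U ((z + 4) / 9)
        + (U ((z + 5) / 9) + (U ((z + 6) / 9) + (U ((z + 7) / 9) + U ((z + 8) / 9)))))))))))
    have a2 := norm_add_le (U ((3 * z + 1) / 3)) (U ((3 * z + 2) / 3)
        + (U (z / 9) + (U ((z + 1) / 9) + (U ((z + 2) / 9) + (U ((z + 3) / 9) + (U ((z + 4) / 9)
        + (U ((z + 5) / 9) + (U ((z + 6) / 9) + (U ((z + 7) / 9) + U ((z + 8) / 9))))))))))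
    have a3 := norm_add_le (U ((3 * z + 2) / 3))
        (U (z / 9) + (U ((z + 1) / 9) + (U ((z + 2) / 9) + (U ((z + 3) / 9) + (U ((z + 4) / 9)
        + (U ((z + 5) / 9) + (U ((z + 6) / 9) + (U ((z + 7) / 9) + U ((z + 8) / 9)))))))))
    have a4 := norm_add_le (U (z / 9)) (U ((z + 1) / 9) + (U ((z + 2) / 9) + (U ((z + 3) / 9)
        + (U ((z + 4) / 9)
        + (U ((z + 5) / 9) + (U ((z + 6) / 9) + (U ((z + 7) / 9) + U ((z + 8) / 9))))))))
    have a5 := norm_add_le (U ((z + 1) / 9)) (U ((z + 2) / 9) + (U ((z + 3) / 9) + (U ((z + 4) / 9)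
        + (U ((z + 5) / 9) + (U ((z + 6) / 9) + (U ((z + 7) / 9) + U ((z + 8) / 9)))))))
    have a6 := norm_add_le (U ((z + 2) / 9)) (U ((z + 3) / 9) + (U ((z + 4) / 9)
        + (U ((z + 5) / 9) + (U ((z + 6) / 9) + (U ((z + 7) / 9) + U ((z + 8) / 9))))))
    have a7 := norm_add_le (U ((z + 3) / 9)) (U ((z + 4) / 9)
        + (U ((z + 5) / 9) + (U ((z + 6) / 9) + (U ((z + 7) / 9) + U ((z + 8) / 9)))))
    have a8 := norm_add_le (U ((z + 4) / 9))
        (U ((z + 5) / 9) + (U ((z + 6) / 9) + (U ((z + 7) / 9) + U ((z + 8) / 9))))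
    have a9 := norm_add_le (U ((z + 5) / 9)) (U ((z + 6) / 9) + (U ((z + 7) / 9) + U ((z + 8) / 9)))
    have a10 := norm_add_le (U ((z + 6) / 9)) (U ((z + 7) / 9) + U ((z + 8) / 9))
    have a11 := norm_add_le (U ((z + 7) / 9)) (U ((z + 8) / 9))
    linarith
  have hbig' : ‖c ^ 2 - 4‖ < 3 := lt_of_mul_lt_mul_right hbig hpos.le
  have h4 : (4 : ℝ) ≤ ‖c ^ 2‖ + ‖c ^ 2 - 4‖ := by
    have h := norm_sub_le (c ^ 2) (c ^ 2 - 4)
    rw [show c ^ 2 - (c ^ 2 - 4) = 4 by ring] at h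
    simpa using h
  rw [norm_pow] at h4
  nlinarith [norm_nonneg c]

lemma invariance {U : ℂ → ℂ} (hinv : ∀ z : ℂ, 0 < z.im → U (z + 1) = U z ∧ U (-z⁻¹) = U z)
    (g : Matrix.SpecialLinearGroup (Fin 2) ℤ) : ∀ z : UpperHalfPlane,
      U ((g • z : UpperHalfPlane) : ℂ) = U (z : ℂ) := by
  have hg : g ∈ Subgroup.closure {ModularGroup.S, ModularGroup.T} := by
    rw [_root_.SpecialLinearGroup.SL2Z_generators]; trivial
  induction hg using Subgroup.closure_induction with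
  | mem x hx =>
    intro z
    rcases hx with rfl | rfl
    · rw [UpperHalfPlane.modular_S_smul]
      have := (hinv (z : ℂ) z.im_pos).2
      simpa [inv_neg] using this
    · rw [UpperHalfPlane.modular_T_smul, UpperHalfPlane.coe_vadd]
      have := (hinv (z : ℂ) z.im_pos).1
      rw [← this]
      congr 1
      push_cast
      ring
  | one => intro z; rw [one_smul]
  | mul x y _ _ hx hy => intro z; rw [mul_smul, hx, hy]
  | inv x _ hx =>
    intro z
    have := hx (x⁻¹ • z)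
    rw [smul_inv_smul] at this
    exact this.symm

lemma coe_smul_eq (g : Matrix.SpecialLinearGroup (Fin 2) ℤ) (z : UpperHalfPlane) :
    ((g • z : UpperHalfPlane) : ℂ) = moeb g z := by
  rw [UpperHalfPlane.specialLinearGroup_apply]
  simp [moeb]

lemma moeb_den_ne {g : Matrix.SpecialLinearGroup (Fin 2) ℤ} {z : ℂ} (hz : 0 < z.im) :
    (g 1 0 : ℂ) * z + (g 1 1 : ℂ) ≠ 0 := by
  intro h0
  have him := congrArg Complex.im h0
  have hre := congrArg Complex.re h0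
  simp at him hre
  have hdet : g 0 0 * g 1 1 - g 0 1 * g 1 0 = 1 := by
    have := g.det_coe
    rw [Matrix.det_fin_two] at this
    exact this
  rcases him with hC | hz0
  · rw [hC] at hre
    simp at hre
    rw [hC, hre] at hdet
    simp at hdet
  · linarith

/-- Let `D` be the disc of radius `1/10` around the elliptic point `i`.  There is one compact set
`L` in the upper half-plane, disjoint from all modular translates of `D`, such that every
Hecke-Maass cusp form satisfies `|U(z)| ≤ 4 |U(w)|` for each `z ∈ D` and some `w ∈ L`.  Hence, for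
every real exponent `s`, the sup-norm bound with exponent `s` on all compact sets follows from the
same bound on the compact sets which meet no modular translate of `D`. -/
theorem result :
    (∃ L : Set ℂ, IsCompact L ∧ L ⊆ {z : ℂ | 0 < z.im} ∧ AwayFromI L ∧
      ∀ (U : ℂ → ℂ) (T : ℝ), IsHeckeMaass U T → ∀ z : ℂ, ‖z - Complex.I‖ ≤ 1 / 10 →
        ∃ w ∈ L, ‖U z‖ ≤ 4 * ‖U w‖) ∧
    ∀ s : ℝ,
      (∀ K : Set ℂ, IsCompact K → K ⊆ {z : ℂ | 0 < z.im} → AwayFromI K → SupNormBound K s) →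
      ∀ K : Set ℂ, IsCompact K → K ⊆ {z : ℂ | 0 < z.im} → SupNormBound K s := by
  refine ⟨⟨bigL, isCompact_bigL, bigL_sub, away_bigL, fun U T hU z hz => hecke_ineq hU hz⟩, ?_⟩
  intro s h K hK hKsub
  -- the part of K away from the orbit
  let K1 : Set ℂ := ⋂ g : Matrix.SpecialLinearGroup (Fin 2) ℤ,
    (K ∩ (fun z => ‖moeb g z - Complex.I‖) ⁻¹' Set.Ici (1 / 10))
  have hK1sub : K1 ⊆ K := by
    intro z hz
    exact (Set.mem_iInter.mp hz 1).1
  have hK1closed : IsClosed K1 := by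
    refine isClosed_iInter fun g => ?_
    refine ContinuousOn.preimage_isClosed_of_isClosed ?_ hK.isClosed isClosed_Ici
    refine ContinuousOn.norm (ContinuousOn.sub ?_ continuousOn_const)
    unfold moeb
    refine ContinuousOn.div (by fun_prop) (by fun_prop) ?_
    intro z hz
    exact moeb_den_ne (hKsub hz)
  have hK1 : IsCompact K1 := hK.of_isClosed_subset hK1closed hK1sub
  have hK1away : AwayFromI K1 := fun z hz g => (Set.mem_iInter.mp hz g).2
  obtain ⟨C1, hC1⟩ := h K1 hK1 (hK1sub.trans hKsub) hK1away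
  obtain ⟨C2, hC2⟩ := h bigL isCompact_bigL bigL_sub away_bigL
  refine ⟨max C1 (4 * C2), fun U T hT hU z hz => ?_⟩
  have hTs : 0 < T ^ s := Real.rpow_pos_of_pos (by linarith) s
  by_cases hmem : z ∈ K1
  · exact (hC1 U T hT hU z hmem).trans (mul_le_mul_of_nonneg_right (le_max_left _ _) hTs.le)
  · have : ∃ g : Matrix.SpecialLinearGroup (Fin 2) ℤ, ‖moeb g z - Complex.I‖ < 1 / 10 := by
      by_contra hno
      push Not at hno
      exact hmem (Set.mem_iInter.mpr fun g => ⟨hz, hno g⟩)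
    obtain ⟨g, hg⟩ := this
    obtain ⟨w, hw, hle⟩ := hecke_ineq hU hg.le
    have e : U (moeb g z) = U z := by
      have := invariance hU.2.1 g ⟨z, hKsub hz⟩
      rw [coe_smul_eq] at this
      exact this
    rw [e] at hle
    have h2 := hC2 U T hT hU w hw
    calc ‖U z‖ ≤ 4 * ‖U w‖ := hle
      _ ≤ 4 * (C2 * T ^ s) := by linarith
      _ = (4 * C2) * T ^ s := by ring
      _ ≤ _ := mul_le_mul_of_nonneg_right (le_max_right _ _) hTs.le

end Pool.Agent.Results.MP_8fded1_nt.EllipticPointIsHarmless
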